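import Mathlib
import Pool.Agent.Helper26.EC.Final

set_option autoImplicit false

namespace Pool.Agent.Results.MP_05398e_lc.FractionalEmbedding

open Pool.Agent.Helper26.EC

/-- If the polynomial time hierarchy does not collapse, then `NP(G, f) ⊆ NP(G', f')` implies that
`(G, f)` is embedded into `(G', f')` in the multi-valued sense `FoldLE`. -/
theorem result (hPH : ¬ PHCollapses) (k : ℕ) (G G' : Type) [Lattice G] [OrderTop G] [Fintype G]
    [Lattice G'] [OrderTop G'] [Fintype G'] (f : G → Fin k) (f' : G' → Fin k)
    (h : NPclass f ⊆ NPclass f') : FoldLE f f' :=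
  foldLE_of_subset hPH f f' h

end Pool.Agent.Results.MP_05398e_lc.FractionalEmbedding
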