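import Mathlib
import Pool.Agent.Helper26.EC.Final

set_option autoImplicit false

namespace Pool.Agent.Results.MP_05398e_lc.SymmetricOperations

open Pool.Agent.Helper26.EC

/-- If the polynomial time hierarchy does not collapse, then `NP(G, f) ⊆ NP(G', f')` iff
`(G, f) ≤ (G', f')`, for all `(G, f)` with `G` a chain and all `(G', f')`, and for all `(G, f)` and
all `(G', f')` with symmetric operations of all arities. -/
theorem result (hPH : ¬ PHCollapses) (k : ℕ) (G G' : Type) [Lattice G] [OrderTop G] [Fintype G]
    [Lattice G'] [OrderTop G'] [Fintype G'] (f : G → Fin k) (f' : G' → Fin k)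
    (h : (∀ a b : G, a ≤ b ∨ b ≤ a) ∨ HasSymmetric f') :
    NPclass f ⊆ NPclass f' ↔ LabLE f f' := by
  refine ⟨fun hs => ?_, NPclass_subset_of_labLE⟩
  have hF := fracLE_of_subset hPH f f' hs
  rcases h with h | h
  · exact hF.labLE_of_chain h
  · exact hF.foldLE.labLE_of_symmetric h

end Pool.Agent.Results.MP_05398e_lc.SymmetricOperations
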